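import Pool.Agent.X190.JBMult

/-! The Jordan product of the multiplier algebra is separately J-strict continuous. -/

set_option autoImplicit false

namespace Pool.Agent.Results.MP_6503f0_an.SeparatelyContinuous

open Filter Topology Pool.Agent.X190.JB

universe u

/-- Let `W` be a JB*-algebra (for the question: the bidual of `𝔄`) with product `J.mul`, and `A` a
norm closed *-subalgebra (for the question: `𝔄`). Then the multipliers
`Mult J A = {x ∈ W : x ∘ A ⊆ A}` are closed under the product, and for every multiplier `x` the map
`y ↦ x ∘ y` is continuous from the multipliers to the multipliers in the J-strict topology. -/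
theorem result (W : Type u) [NormedAddCommGroup W] [NormedSpace ℂ W] [CompleteSpace W]
    (J : JBStarAlg W) (A : Submodule ℂ W) (hA : IsJBSub J A) :
    ∃ hM : ∀ x y : Mult J A, J.mul x y ∈ Mult J A, ∀ x : Mult J A,
      @Continuous _ _ (jstrict J A) (jstrict J A)
        (fun y : Mult J A => (⟨J.mul x y, hM x y⟩ : Mult J A)) := by
  refine ⟨mult_mul hA, fun x => ?_⟩
  let τ := jstrict J A
  have hle : Submodule.span ℂ {z | ∃ u ∈ A, ∃ v ∈ A, z = J.mul u v} ≤ A := by
    rw [Submodule.span_le]
    rintro _ ⟨a, ha, b, hb, rfl⟩
    exact hA.mul_mem a ha b hb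
  have hx' : ∀ a ∈ A, J.mul a x ∈ A := fun a ha => by rw [J.mul_comm]; exact x.2 a ha
  have main : ∀ c ∈ A, Continuous (fun y : Mult J A => J.mul c (J.mul x y)) := by
    intro c hc
    have hc' := span_products hA hc
    induction hc' using Submodule.span_induction with
    | mem z hz =>
      obtain ⟨a, ha, b, hb, rfl⟩ := hz
      have ca : Continuous (fun y : Mult J A => J.mul a y) := continuous_jstrict ha
      have cb : Continuous (fun y : Mult J A => J.mul b y) := continuous_jstrict hb
      have cab : Continuous (fun y : Mult J A => J.mul (J.mul (J.mul a b) x) y) :=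
        continuous_jstrict (hx' _ (hA.mul_mem a ha b hb))
      have e : (fun y : Mult J A => J.mul (J.mul a b) (J.mul x y)) = fun y : Mult J A =>
          J.L a (J.L x (J.mul b y)) + J.L b (J.L x (J.mul a y)) + J.mul (J.mul (J.mul a b) x) y
            - J.L (J.mul a x) (J.mul b y) - J.L (J.mul b x) (J.mul a y) := by
        funext y
        rw [J.key]
        simp only [JBStarAlg.L_apply]
        rw [J.mul_comm (J.mul b y) (J.mul a x), J.mul_comm (J.mul a y) (J.mul b x)]
      rw [e]
      have c1 : Continuous (fun y : Mult J A => J.L a (J.L x (J.mul b y))) :=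
        (J.L a).continuous.comp ((J.L x).continuous.comp cb)
      have c2 : Continuous (fun y : Mult J A => J.L b (J.L x (J.mul a y))) :=
        (J.L b).continuous.comp ((J.L x).continuous.comp ca)
      have c3 : Continuous (fun y : Mult J A => J.L (J.mul a x) (J.mul b y)) :=
        (J.L _).continuous.comp cb
      have c4 : Continuous (fun y : Mult J A => J.L (J.mul b x) (J.mul a y)) :=
        (J.L _).continuous.comp ca
      exact (((c1.add c2).add cab).sub c3).sub c4
    | zero =>
      have : (fun y : Mult J A => J.mul 0 (J.mul x y)) = fun _ => 0 := by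
        funext y; exact J.zero_mul _
      rw [this]; exact continuous_const
    | add u v hu hv ihu ihv =>
      have : (fun y : Mult J A => J.mul (u + v) (J.mul x y)) =
          fun y : Mult J A => J.mul u (J.mul x y) + J.mul v (J.mul x y) := by
        funext y; exact J.add_mul _ _ _
      rw [this]; exact (ihu (hle hu)).add (ihv (hle hv))
    | smul r u hu ihu =>
      have : (fun y : Mult J A => J.mul (r • u) (J.mul x y)) =
          fun y : Mult J A => r • J.mul u (J.mul x y) := by
        funext y; exact J.smul_mul _ _ _
      rw [this]; exact (ihu (hle hu)).const_smul r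
  refine continuous_iInf_rng.2 fun c => ?_
  rw [continuous_induced_rng]
  exact main c c.2

end Pool.Agent.Results.MP_6503f0_an.SeparatelyContinuous
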